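import Pool.Agent.K6.H50.Fano

/-!
# Fano and Calabi-Yau subvarieties of small codimension are numerically complete intersections

Let `X ⊂ ℙ^N` be a nonsingular subvariety of codimension `r`, `N ≥ 4 r` and `N ≥ 2^r`. By Barth and
Larsen the Chern classes of the normal bundle are multiples of the powers of the hyperplane class,
`c_j(N_X) = c_j h^j`, `j ≤ r`, and `ω_X = O_X(k)` for an integer `k`. The Chern roots
`β_1, ..., β_r` of `N_X` (in units of `h`) are the complex numbers with the elementary symmetric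
functions `c_j`. `X` is numerically a complete intersection of hypersurfaces of degrees
`a_1, ..., a_r` if and only if `{β_j} = {a_j}`; then it has the degree, the Chern classes, and the
Hilbert polynomial of such a complete intersection. The following is known.

* `c_r = β_1 ... β_r` is the degree of `X` (self-intersection formula), `c_1 = N + 1 + k`
  (adjunction), and the Chern classes of the globally generated bundle `N_X(-1)` are not negative.
* `χ(O_X(t))` is the Koszul sum `Σ_S (-1)^|S| χ(ℙ^N, O(t - Σ_(j ∈ S) β_j))` (Riemann-Roch).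
* `h⁰(O_X(t)) = χ(O_X(t))` for `t > k`, and `χ(O_X(-t)) = 0` for `0 < t < -k` (theorem of Kodaira).
  `χ(O_X) = 1` if `k < 0` (Kodaira), and `χ(O_X) = 1 + (-1)^(N - r)` if `k = 0` (Barth and Larsen).
* `dim I_t ≥ C(N + t, N) - h⁰(O_X(t))`, `I_t` the forms of degree `t` which vanish on `X`. The equality
  `h⁰(O_X(t)) = C(N + t, N)` holds if `X` is `t`-normal and lies on no hypersurface of degree `t`; in
  particular for `t = 1` if `X` is not contained in a hyperplane (Zak: `X` is linearly normal).

We show: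

(1) Let `k = -i ≤ 0` (so that `X` is a Fano manifold of index `i`, or a Calabi-Yau manifold, `i = 0`),
`1 ≤ m ≤ N + 1 - i`, and suppose `h⁰(O_X(t)) = C(N + t, N)` for `1 ≤ t < m` (no condition for `m = 1`,
and for `m = 2` it is the condition that `X` is not contained in a hyperplane). If

  `i + 2 m + 1 ≥ 2^r`,

then `X` is numerically a complete intersection of hypersurfaces of degrees `a_j ≥ m`; moreover, with
`a₀ = min a_j ≤ (N + 1 - i) / r`, `X` lies on `#{j : a_j = a₀} ≥ 1` linearly independent hypersurfaces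
of degree `a₀`.

(2) Let `k ≥ 0`. If `h⁰(O_X(t)) = C(N + t, N)` for `k < t ≤ k + 2^r - 2`, then `X` is numerically a
complete intersection.

So every Fano subvariety of codimension `r` and index `≥ 2^r - 3` (`≥ 2^r - 5` if it is not contained in
a hyperplane) is numerically a complete intersection and lies on a hypersurface of degree
`≤ (N + 1 - i) / r`, without any bound for its degree; and in general `X` is numerically a complete
intersection, or `h⁰(O_X(t)) ≠ C(N + t, N)` for some `2 ≤ t < 2^(r-1)` if `k ≤ 0` (and `X` is not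
contained in a hyperplane), for some `k < t ≤ k + 2^r - 2` if `k > 0`.

The proof. Omit the terms of the sets `S = ∅` and `S = {1, ..., r}` from the Koszul sum. The rest, with
at most `2^r - 2` different exponents `β_S`, vanishes at the `i + 2 m - 1` consecutive integers
`-(i + m - 1), ..., m - 1` (for `t ≤ -i` by the symmetry `β_S ↦ N + 1 - i - β_S`), respectively at
`k + 1, ..., k + 2^r - 2`. The functions `t ↦ χ(ℙ^N, O(t - β))` are independent on these integers, up
to the natural numbers `β`. So only integral exponents `β_S` occur, with coefficients different from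
zero, in `Π (1 - exp(β_j z)) = Σ ± exp(β_S z)`, and this function has the period `2 π i`. Comparing its
zeros at `0` and `2 π i` we see that all `β_j` are integers. They are positive by the positivity of
`N_X(-1)`, and the last statement of (1) follows from the Koszul sum at `t = a₀`.
-/

set_option autoImplicit false

namespace Pool.Agent.Results.MP_9a3fdb_ag.FanoIndex

/-- `χ(ℙ^N, O(x)) = (x + 1) ... (x + N) / N!`. -/
noncomputable def chiPN (N : ℕ) (x : ℂ) : ℂ :=
  (∏ j ∈ Finset.range N, (x + j + 1)) / N.factorial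

/-- `χ(O_X(x)) = Σ_S (-1)^|S| χ(ℙ^N, O(x - β_S))`, `β_S` the sum of the Chern roots `β_j`, `j ∈ S`. -/
noncomputable def chiX (N : ℕ) {r : ℕ} (β : Fin r → ℂ) (x : ℂ) : ℂ :=
  ∑ S : Finset (Fin r), (-1) ^ S.card * chiPN N (x - ∑ j ∈ S, β j)

/-- The Chern numbers of `N_X(-1)`: the elementary symmetric functions of the `β_j - 1`. -/
noncomputable def chernTwist {r : ℕ} (β : Fin r → ℂ) (k : ℕ) : ℂ :=
  ∑ S ∈ Finset.powersetCard k Finset.univ, ∏ j ∈ S, (β j - 1)

/-- The space of the forms of degree `t` in the ideal `I`. -/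
noncomputable def forms {N : ℕ} (I : Ideal (MvPolynomial (Fin (N + 1)) ℂ)) (t : ℕ) :
    Submodule ℂ (MvPolynomial (Fin (N + 1)) ℂ) :=
  I.restrictScalars ℂ ⊓ MvPolynomial.homogeneousSubmodule (Fin (N + 1)) ℂ t

/-- **Fano and Calabi-Yau subvarieties of small codimension.** -/
theorem result (N r : ℕ) (hr : 1 ≤ r) (hN : 2 ^ r ≤ N) (β : Fin r → ℂ)
    -- the degree of `X` is not zero
    (hd : ∏ j, β j ≠ 0)
    -- the Chern classes of `N_X(-1)` are not negative
    (hpos : ∀ k ≤ r, ∃ c : ℝ, 0 ≤ c ∧ chernTwist β k = c) :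
    -- (1) Fano and Calabi-Yau manifolds, `ω_X = O_X(-i)`
    (∀ i m : ℕ, 1 ≤ m → m ≤ N + 1 - i → 2 ^ r ≤ i + 2 * m + 1 → ∑ j, β j = N + 1 - i →
      -- the theorem of Kodaira, and the value of `χ(O_X)`
      (∀ t : ℕ, 1 ≤ t → t < i → chiX N β (-t) = 0) →
      chiX N β 0 = (if i = 0 then 1 + (-1) ^ (N + r) else 1) →
      -- `h⁰(O_X(t)) = C(N + t, N)` for `1 ≤ t < m`
      (∀ t : ℕ, 1 ≤ t → t < m → chiX N β t = ((N + t).choose N : ℕ)) →
      -- `I` is the ideal of `X`: `χ(O_X(t)) = h⁰(O_X(t)) = h ≥ C(N + t, N) - dim I_t`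
      ∀ I : Ideal (MvPolynomial (Fin (N + 1)) ℂ),
      (∀ t : ℕ, 1 ≤ t → ∃ h : ℕ, chiX N β t = h ∧
        (N + t).choose N ≤ h + Module.finrank ℂ (forms I t)) →
      -- the Chern roots are positive integers
      ∃ a : Fin r → ℕ, (∀ j, β j = a j) ∧
        -- the smallest of them
        ∃ a₀ : ℕ, m ≤ a₀ ∧ r * a₀ ≤ N + 1 - i ∧ (∀ j, a₀ ≤ a j) ∧
          1 ≤ (Finset.univ.filter fun j => a j = a₀).card ∧
          (Finset.univ.filter fun j => a j = a₀).card ≤ Module.finrank ℂ (forms I a₀) ∧
          ∃ F ∈ I, F ≠ 0 ∧ F.IsHomogeneous a₀) ∧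
    -- (2) `ω_X = O_X(k)`, `k ≥ 0`
    (∀ k : ℕ, ∑ j, β j = N + 1 + k →
      (∀ t : ℕ, k < t → t ≤ k + 2 ^ r - 2 → chiX N β t = ((N + t).choose N : ℕ)) →
      ∃ a : Fin r → ℕ, ∀ j, 1 ≤ a j ∧ β j = a j) := by
  classical
  have hβ : ∀ j, β j ≠ 0 := fun j h => hd (Finset.prod_eq_zero (Finset.mem_univ j) h)
  -- integral roots are positive
  have key : (∀ j, ∃ n : ℤ, β j = n) → ∃ a : Fin r → ℕ, ∀ j, 1 ≤ a j ∧ β j = a j := by
    intro hint
    choose n hn using hint
    have hn1 : ∀ j, 1 ≤ n j := fun j =>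
      Pool.Agent.K6.H50.Fano.root_pos β hpos j (n j) (hn j)
    obtain ⟨a, ha⟩ : ∃ a : Fin r → ℕ, ∀ j, n j = a j :=
      ⟨fun j => (n j).toNat, fun j => (Int.toNat_of_nonneg (by have := hn1 j; omega)).symm⟩
    refine ⟨a, fun j => ⟨?_, ?_⟩⟩
    · have := hn1 j
      rw [ha j] at this
      exact_mod_cast this
    · rw [hn j, ha j]; push_cast; rfl
  refine ⟨?_, ?_⟩
  · intro i m hm hmi hi hK hkod h0 hm' I hI
    have hmi' : m + i ≤ N + 1 := by omega
    have hA := Pool.Agent.K6.H50.Fano.mid_zero (N := N) (i := i) (m := m) hr hmi' β hK h0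
      (fun t h1 h2 => by
        rw [Pool.Agent.K6.H50.Fano.bin_natCast]
        exact hm' t h1 h2)
    obtain ⟨a, ha⟩ := key fun j => Pool.Agent.K6.H50.Fano.integral (N := N) (i := i) (m := m) hr
      hm hi (by omega) hmi' β hβ hK hkod hA j
    have hβa : ∀ j, β j = a j := fun j => (ha j).2
    have ha1 : ∀ j, 1 ≤ a j := fun j => (ha j).1
    have hsum : ∑ j, a j + i = N + 1 := by
      have h1 : ((∑ j, a j : ℕ) : ℂ) = N + 1 - i := by
        rw [← hK]; push_cast
        exact Finset.sum_congr rfl fun j _ => (hβa j).symm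
      have h2 : ((∑ j, a j + i : ℕ) : ℂ) = ((N + 1 : ℕ) : ℂ) := by
        push_cast at h1 ⊢
        linear_combination h1
      exact_mod_cast h2
    have hne : (Finset.univ : Finset (Fin r)).Nonempty := ⟨⟨0, hr⟩, Finset.mem_univ _⟩
    obtain ⟨j₀, -, hj₀⟩ := Finset.exists_min_image Finset.univ a hne
    have hmin : ∀ j, a j₀ ≤ a j := fun j => hj₀ j (Finset.mem_univ j)
    have hcard : 1 ≤ (Finset.univ.filter fun j => a j = a j₀).card :=
      Finset.card_pos.2 ⟨j₀, Finset.mem_filter.2 ⟨Finset.mem_univ _, rfl⟩⟩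
    have hkos := Pool.Agent.K6.H50.Fano.kos_min (N := N) (i := i) a hsum (a j₀) (ha1 j₀) hmin
    have hβf : β = fun j => (a j : ℂ) := funext hβa
    rw [← hβf] at hkos
    have hkos' : chiX N β (a j₀) + ((Finset.univ.filter fun j => a j = a j₀).card : ℂ) =
        ((N + a j₀).choose N : ℂ) := hkos
    obtain ⟨h, hh, hle⟩ := hI (a j₀) (ha1 j₀)
    have heq : h + (Finset.univ.filter fun j => a j = a j₀).card = (N + a j₀).choose N := by
      rw [hh] at hkos'
      exact_mod_cast hkos'
    have hfin : (Finset.univ.filter fun j => a j = a j₀).card ≤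
        Module.finrank ℂ (forms I (a j₀)) := by
      omega
    refine ⟨a, hβa, a j₀, ?_, ?_, hmin, hcard, hfin, ?_⟩
    · by_contra hlt
      push Not at hlt
      have h1 := hm' (a j₀) (ha1 j₀) hlt
      rw [hh] at h1
      have h2 : h = (N + a j₀).choose N := by exact_mod_cast h1
      omega
    · have h1 : ∑ _j : Fin r, a j₀ ≤ ∑ j, a j := Finset.sum_le_sum fun j _ => hmin j
      rw [Finset.sum_const, Finset.card_univ, Fintype.card_fin, smul_eq_mul] at h1
      omega
    · have hpos' : 0 < Module.finrank ℂ (forms I (a j₀)) := by omega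
      have hbot : forms I (a j₀) ≠ ⊥ := fun hb => by
        rw [hb, finrank_bot] at hpos'
        exact lt_irrefl _ hpos'
      obtain ⟨F, hF, hF0⟩ := (Submodule.ne_bot_iff _).1 hbot
      exact ⟨F, hF.1, hF0, (MvPolynomial.mem_homogeneousSubmodule _ _).1 hF.2⟩
  · intro k hK hm
    refine key fun j => Pool.Agent.K6.H50.Fano.integral' (N := N) (k := k) hr hN β hβ hK ?_ j
    intro t h1 h2
    rw [Pool.Agent.K6.H50.Fano.bin_natCast]
    exact hm t h1 (by omega)

end Pool.Agent.Results.MP_9a3fdb_ag.FanoIndex
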