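import Pool.Agent.K6.H50.FN2

/-!
# Smooth subvarieties of small codimension defined by equations of degree at most `N - C(r)`

Let `X ⊂ ℙ^N` be a nonsingular subvariety of codimension `r`, `N ≥ 4 r`. By Barth and Larsen the Chern
classes of the normal bundle are integral multiples `c_j(N_X) = c_j h^j` of the powers of the
hyperplane class, `j ≤ r`. The Chern roots `β_1, ..., β_r` are the complex numbers with
`1 + c_1 z + ... + c_r z^r = Π (1 + β_j z)`. `X` is numerically a complete intersection of
hypersurfaces of degrees `a_1, ..., a_r` if and only if `{β_j} = {a_j}`; then it has the degree, the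
canonical class, the Chern classes, and the Hilbert polynomial of such a complete intersection.

Suppose that `X` is cut out (scheme-theoretically) by hypersurfaces of degree at most `d`: the
sheaf `I_X(d)` is globally generated. The following is known.

* `N_X` is ample. `N_X^*(d) = I_X/I_X²(d)` is globally generated, so `N_X^*(d + 1)` is ample; its
  Chern polynomial is `1 + c'_1 z + ... + c'_r z^r = Π (1 + (d + 1 - β_j) z)`. By Fulton and Lazarsfeld
  the Schur polynomials `det (c_(λ_i + j - i))` and `det (c'_(λ_i + j - i))` are positive, for all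
  partitions `λ` of numbers `≤ dim X = N - r` with parts `≤ r`.
* `χ(O_X(t))`, an integer, is the Koszul sum `Σ_S (-1)^|S| χ(ℙ^N, O(t - Σ_(j ∈ S) β_j))`
  (Riemann-Roch).

We show: for every `r ≥ 1` there is a `C` such that, if `d ≤ N - C`, then all Chern roots are positive
integers `≤ d`: `X` is numerically a complete intersection of hypersurfaces of degree at most `d`.

The proof. (1) All numbers `β_j` and `d + 1 - β_j` are nearly real:
`|arg| ≤ π (r - 1) / (m + r - 1)`, where `m = [(N - r) / r]`. Indeed the real and imaginary parts of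
multiples of the sequence `(-1/β_j)^l`, `l < m + r`, are orthogonal to the rows of the `m × (m + r)`
Toeplitz matrix `(c_(j - i))`, whose maximal minors are Schur polynomials, hence positive; so they
have at least `m` changes of sign (an argument of Gantmacher, Krein, and Schoenberg). So the real parts
of the roots are between `0` and `d + 1`, and their imaginary parts are bounded in terms of `r`.
(2) Let `R = Σ_S (-1)^|S| g(β_S) C(t - β_S, l)`, `β_S = Σ_(j ∈ S) β_j`. It is an integer for all
polynomials `g` with integral coefficients, all integers `t`, and all `l ≤ N - deg g`. Let `β` be a root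
which is not an integer, with minimal real part, and let `g` be divisible by the minimal polynomials
of all sums `β_S` which are not conjugate to `β`. So the sum is extended over the conjugates of `β`,
which are Chern roots, and the binomial coefficients are of the order `N ^ (-e)`, `e` arbitrarily large
with `C`, for suitable `t` and `l = N - C'(r)`, since all `t - β_j` are between `e` and `l - 1 - e`. Hence
the integers vanish, for `deg β` consecutive powers of `T` times `g`, and so do the binomial
coefficients, a contradiction.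
-/

set_option autoImplicit false

namespace Pool.Agent.Results.MP_9a3fdb_ag.LowDegreeEquations

open Polynomial

/-- `χ(ℙ^N, O(x)) = (x + 1) ... (x + N) / N!`. -/
noncomputable def chiPN (N : ℕ) (x : ℂ) : ℂ :=
  (∏ j ∈ Finset.range N, (x + j + 1)) / N.factorial

/-- `χ(O_X(x)) = Σ_S (-1)^|S| χ(ℙ^N, O(x - β_S))`, `β_S` the sum of the Chern roots `β_j`, `j ∈ S`. -/
noncomputable def chiX (N : ℕ) {r : ℕ} (β : Fin r → ℂ) (x : ℂ) : ℂ :=
  ∑ S : Finset (Fin r), (-1) ^ S.card * chiPN N (x - ∑ j ∈ S, β j)

/-- The Schur polynomial `det (c_(λ_i + j - i))` of the partition `λ_1 ≥ ... ≥ λ_m` in the Chern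
classes `c_j` (the coefficients of `c`; `c_j = 0` for `j < 0`). -/
noncomputable def schur (c : ℤ[X]) {m : ℕ} (lam : Fin m → ℕ) : ℤ :=
  Matrix.det (Matrix.of fun i j : Fin m =>
    if (i : ℕ) ≤ lam i + j then c.coeff (lam i + j - i) else 0)

/-- The Schur polynomials of the partitions of numbers `≤ n` with parts `≤ r` are positive. -/
def SchurPositive (r n : ℕ) (c : ℤ[X]) : Prop :=
  ∀ (m : ℕ) (lam : Fin m → ℕ), Antitone lam → (∀ i, lam i ≤ r) → ∑ i, lam i ≤ n → 0 < schur c lam

theorem chiX_eq (N : ℕ) {r : ℕ} (β : Fin r → ℂ) (x : ℂ) :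
    Pool.Agent.K6.H50.CI.J β (fun _ => 1) x N = chiX N β (x - N) := by
  unfold Pool.Agent.K6.H50.CI.J chiX
  refine Finset.sum_congr rfl fun S _ => ?_
  rw [mul_one]
  congr 1
  unfold Pool.Agent.K6.H50.CI.cho chiPN
  congr 1
  rw [← Finset.prod_range_reflect]
  refine Finset.prod_congr rfl fun j hj => ?_
  have hj' := Finset.mem_range.1 hj
  rw [show N - 1 - j = N - (j + 1) by omega, Nat.cast_sub (by omega)]
  push_cast
  ring

/-- **Smooth subvarieties of codimension `r` cut out by hypersurfaces of degree at most `N - C(r)` are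
numerically complete intersections.** -/
theorem result (r : ℕ) (hr : 1 ≤ r) : ∃ C₀ : ℕ, ∀ N d : ℕ, d + C₀ ≤ N →
    ∀ (c c' : ℤ[X]) (β : Fin r → ℂ),
      -- the Chern polynomials of `N_X` and of `N_X^*(d + 1)`
      c.map (Int.castRingHom ℂ) = ∏ j, (1 + C (β j) * X) →
      c'.map (Int.castRingHom ℂ) = ∏ j, (1 + C (d + 1 - β j) * X) →
      -- the Schur polynomials of degree `≤ dim X` are positive
      SchurPositive r (N - r) c → SchurPositive r (N - r) c' →
      -- the Euler characteristics of `O_X(t)` are integers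
      (∀ t : ℤ, ∃ z : ℤ, chiX N β t = z) →
      -- the Chern roots are positive integers `≤ d`
      ∃ a : Fin r → ℕ, ∀ j, 1 ≤ a j ∧ a j ≤ d ∧ β j = a j := by
  classical
  have hr0 : (0 : ℝ) < r := by exact_mod_cast hr
  have hr1 : (1 : ℝ) ≤ r := by exact_mod_cast hr
  obtain ⟨C₁, hC₁⟩ := Pool.Agent.K6.H50.FN.window2 r hr r hr1
  refine ⟨C₁ + 4 * r + 7 * r ^ 2 + 1, ?_⟩
  intro N d hNd c c' β hc hc' hpos hpos' hchi
  have hN2 : 4 * r ≤ N := by omega
  have hN3 : 7 * r ^ 2 ≤ N := by omega
  have hnr := fun j => Pool.Agent.K6.H50.NR.near_real hr hN2 hN3 c β hc hpos j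
  have hnr' := fun j => Pool.Agent.K6.H50.NR.near_real hr hN2 hN3 c'
    (fun j => (d : ℂ) + 1 - β j) hc' hpos' j
  have hlt : ∀ j, (β j).re < d + 1 := by
    intro j
    have h1 := (hnr' j).1
    simp at h1
    linarith
  have hsum := Pool.Agent.K6.H50.SP.sum_re c β hc
  have hNd' : (d : ℝ) + (C₁ + 1) ≤ N := by
    exact_mod_cast (show d + (C₁ + 1) ≤ N by omega)
  have hC0 : (0 : ℝ) ≤ C₁ := Nat.cast_nonneg _
  have hc1 : (c.coeff 1 : ℝ) ≤ r * N := by
    rw [← hsum]
    calc ∑ j, (β j).re ≤ ∑ _j : Fin r, (N : ℝ) :=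
          Finset.sum_le_sum fun j _ => by linarith [hlt j]
      _ = r * N := by simp
  have hspread : ∀ i j, (β i).re - (β j).re ≤ (N : ℝ) - C₁ := by
    intro i j
    linarith [hlt i, (hnr j).1]
  have hJ : ∀ t : ℤ, Pool.Agent.K6.H50.CI.IsZ (Pool.Agent.K6.H50.CI.J β (fun _ => 1) t N) := by
    intro t
    rw [chiX_eq]
    obtain ⟨z, hz⟩ := hchi (t - N)
    exact ⟨z, by rw [← hz]; push_cast; rfl⟩
  have hint := hC₁ N c β hc hpos hJ hc1 hspread
  choose n hn using hint
  have hn1 : ∀ j, 1 ≤ n j ∧ n j ≤ d := by
    intro j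
    have h1 := (hnr j).1
    have h3 := hlt j
    rw [hn j, Complex.intCast_re] at h1 h3
    have h2 : 0 < n j := by exact_mod_cast h1
    have h4 : n j < d + 1 := by exact_mod_cast h3
    omega
  have hn2 : ∀ j, 1 ≤ (n j).toNat ∧ (n j).toNat ≤ d := fun j => by
    have := hn1 j
    omega
  refine ⟨fun j => (n j).toNat, fun j => ⟨(hn2 j).1, (hn2 j).2, ?_⟩⟩
  rw [hn j]
  have : ((n j).toNat : ℤ) = n j := Int.toNat_of_nonneg (by have := hn1 j; omega)
  exact_mod_cast congrArg (fun z : ℤ => (z : ℂ)) this.symm

end Pool.Agent.Results.MP_9a3fdb_ag.LowDegreeEquations
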