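import Pool.Agent.K6.H64.VC.Const

/-!
# The first infinitesimal neighbourhood of a nonsingular subvariety of codimension two

Let `X ⊂ P^n`, `n ≥ 4`, be a nonsingular subvariety of codimension two which is the zero scheme of a
section of a rank two bundle `E` (for `n ≥ 6` every nonsingular `X` of codimension two is of this
form, by the theorems of Barth-Larsen and Serre), and let `c = c₁(E)`; so the canonical sheaf of `X`
is `O_X(c - n - 1)`.  Let `X¹` be the first infinitesimal neighbourhood of `X`, with the ideal `I²`.
For a complete intersection the forms of degree `k` cut out on `X¹` the complete linear system, for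
every `k`.  Conversely, if in the one degree `k = c - 1` the forms cut out on `X¹` a linear system
of codimension at most `n` in the complete one (`h^1(I_X^2(c - 1)) ≤ n`), then `X` is a complete
intersection.

The proof.  (1) For a trace free endomorphism `Y` of `E` put `q(Y) = s ∧ Y s`.  This gives an exact
sequence `0 → E(-c) → End_0 E → I_X^2(c) → 0`, and together with `0 → O(-c) → E(-c) → I_X → 0` it
gives `h^1(End_0 E(-1)) ≤ h^1(I_X(-1)) + h^1(I_X^2(c - 1))`, where the first term is zero because `X`
is irreducible of positive dimension.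
(2) The Atiyah class maps the space of the constant vector fields to `H^1(End_0 E(-1))`, and this map
is injective if `E` does not split, by the theorem `MP_b01859_ag.SymmetryAlgebra` of the starting
files: if `∂_u` lifts to `E`, then all the linear vector fields `l ∂_u` lift.
The cohomology is computed with Čech cocycles of matrices of rational functions.
-/

set_option autoImplicit false

namespace Pool.Agent.Results.MP_9a3fdb_ag.NeighbourhoodOfCodimTwo

open MvPolynomial H960VB

/-- the homogeneous coordinate ring of `P^n` -/
abbrev Poly (n : ℕ) : Type := MvPolynomial (Fin (n + 1)) ℂ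

/-- the affine cone over the projective zero set `X` of the ideal `I` -/
def cone {n : ℕ} (I : Ideal (Poly n)) : Set (Fin (n + 1) → ℂ) :=
  {x | ∀ F ∈ I, eval x F = 0}

/-- the gradient at the point `x` -/
noncomputable def grad {n : ℕ} (F : Poly n) (x : Fin (n + 1) → ℂ) :
    Fin (n + 1) → ℂ := fun i => eval x (pderiv i F)

/-- the conormal space at the point `x` of the cone -/
noncomputable def conormal {n : ℕ} (I : Ideal (Poly n))
    (x : Fin (n + 1) → ℂ) : Submodule ℂ (Fin (n + 1) → ℂ) :=
  Submodule.span ℂ {v | ∃ F ∈ I, v = grad F x}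

/-- `I` is the homogeneous ideal of a nonsingular irreducible closed subvariety `X` of
codimension `r` of the complex projective space `ℙⁿ`: it is a homogeneous prime ideal, `X` is not
empty, and at every point of `X` the gradients of the elements of `I` span a space of dimension
`r` (Jacobian criterion). -/
structure IsSmoothVariety (n r : ℕ) (I : Ideal (Poly n)) : Prop where
  prime : I.IsPrime
  homogeneous : ∀ F ∈ I, ∀ d, homogeneousComponent d F ∈ I
  nonempty : ∃ x ∈ cone I, x ≠ 0
  smooth : ∀ x ∈ cone I, x ≠ 0 → Module.finrank ℂ (conormal I x) = r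

/-- `X` is a transversal intersection of `r` hypersurfaces: there are forms `F_1, …, F_r` with
`X = V(F_1, …, F_r)`, with linearly independent differentials at every point of `X`, and
generating the homogeneous ideal `I` of `X`. -/
def IsTransversalIntersection (n r : ℕ) (I : Ideal (Poly n)) : Prop :=
  ∃ F : Fin r → Poly n, (∀ i, ∃ d, (F i).IsHomogeneous d) ∧
    (∀ x, x ∈ cone I ↔ ∀ i, eval x (F i) = 0) ∧
    (∀ x ∈ cone I, x ≠ 0 → LinearIndependent ℂ (fun i => grad (F i) x)) ∧
    I = Ideal.span (Set.range F)

/-- `X` is, as a scheme, the zero scheme of the global section `s` of the rank two bundle `E`: the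
ideal `I` of `X` is the saturation of the ideal generated by the coordinates of `s`. -/
def IsZeroScheme {n : ℕ} (E : Bundle2 n) (s : Fin E.a → Poly n)
    (I : Ideal (Poly n)) : Prop :=
  E.IsSection 0 s ∧ ∀ F, F ∈ I ↔ ∃ N : ℕ, ∀ i, X i ^ N * F ∈ Ideal.span (Set.range s)

/-- The functions `t i / (x i) ^ N` of degree `k` on the open sets `x i ≠ 0` agree on the overlaps
modulo the ideal `𝔞` of the scheme `Y`: they form a global section of `O_Y(k)`.  (Every global
section of `O_Y(k)` is of this form.) -/
def IsSectionOf {n : ℕ} (𝔞 : Ideal (Poly n)) (k : ℤ) (N : ℕ) (t : Fin (n + 1) → Poly n) : Prop :=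
  (∀ i, HomZ (t i) (k + N)) ∧
    ∀ i j, ∃ M : ℕ, (X i * X j) ^ M * (X i ^ N * t j - X j ^ N * t i) ∈ 𝔞

/-- `h^1(I_Y(k)) ≤ b`, where `Y` is the scheme defined by the ideal `𝔞`: there are `b` sections
`t' a / x ^ N'` of `O_Y(k)` such that every section `t / x ^ N` of `O_Y(k)` is the sum of a linear
combination of them and of the restriction of a form `f` of degree `k`.  (The cokernel of
`H^0(O(k)) → H^0(O_Y(k))` is `H^1(I_Y(k))`.) -/
def H1Le {n : ℕ} (𝔞 : Ideal (Poly n)) (k : ℤ) (b : ℕ) : Prop :=
  ∃ (N' : ℕ) (t' : Fin b → Fin (n + 1) → Poly n), (∀ a, IsSectionOf 𝔞 k N' (t' a)) ∧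
    ∀ (N : ℕ) (t : Fin (n + 1) → Poly n), IsSectionOf 𝔞 k N t →
      ∃ (μ : Fin b → ℂ) (f : Poly n), HomZ f k ∧ ∀ i, ∃ M : ℕ,
        X i ^ M * (X i ^ N' * t i - X i ^ N * ∑ a, C (μ a) * t' a i - X i ^ (N + N') * f) ∈ 𝔞

/-- Let `X ⊂ P^n`, `n ≥ 4`, be a nonsingular variety of codimension two which is the zero scheme of
a section of a rank two bundle with first Chern class `c`, and suppose that
`h^1(I_X^2(c - 1)) ≤ n`.  Then `X` is a transversal intersection of two hypersurfaces. -/
theorem result {n : ℕ} (hn : 4 ≤ n) (I : Ideal (Poly n)) (hI : IsSmoothVariety n 2 I)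
    -- `X` is the zero scheme of a section of `E`
    (E : Bundle2 n) (s : Fin E.a → Poly n) (hs : IsZeroScheme E s I)
    -- the first Chern class of `E` is `c = p + q`, where `(p, q)` is the splitting type of a line
    (P Q : Fin (n + 1) → ℂ) (hPQ : LinearIndependent ℂ ![P, Q]) (p q c : ℤ)
    (hE : E.SplitsOn P Q p q) (hc : c = p + q)
    -- the forms of degree `c - 1` cut out on the first infinitesimal neighbourhood of `X` a linear
    -- system of codimension at most `n`
    (h : H1Le (I ^ 2) (c - 1) n) :
    IsTransversalIntersection n 2 I := by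
  classical
  subst hc
  have hpr := hI.prime
  have Z : Pool.Agent.W467.FX.ZS E s I :=
    { sec := Pool.Agent.W615.sec_iff.2 hs.1
      prime := hI.prime
      mem := fun i => (hs.2 _).2 ⟨0, fun j => by
        rw [pow_zero, one_mul]
        exact Ideal.subset_span ⟨i, rfl⟩⟩
      gen := by
        intro F hF x hx
        obtain ⟨N, hN⟩ := (hs.2 F).1 hF
        obtain ⟨i, hi⟩ : ∃ i, x i ≠ 0 := by
          by_contra hc
          push Not at hc
          exact hx (funext hc)
        exact ⟨X i ^ N, by rw [map_pow, eval_X]; exact pow_ne_zero _ hi, hN i⟩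
      smooth := hI.smooth
      ne := hI.nonempty }
  have hsp : E.Splits := by
    refine Pool.Agent.K6.H64.VB.smooth_main hn Z (fun F hF => (hs.2 F).1 hF) hPQ hE (b := n) ?_
      le_rfl
    obtain ⟨N', t', -, ht⟩ := h
    exact ⟨N', t', ht⟩
  obtain ⟨F, G, hF, hG, hFG⟩ := Z.ci (by omega) hsp
  have hrange : I = Ideal.span (Set.range ![F, G]) := by
    rw [hFG, Matrix.range_cons, Matrix.range_cons, Matrix.range_empty, Set.union_empty]
    rfl
  refine ⟨![F, G], ?_, ?_, ?_, hrange⟩
  · intro i
    fin_cases i
    · exact hF
    · exact hG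
  · intro x
    constructor
    · intro hx i
      apply hx
      rw [hrange]
      exact Ideal.subset_span ⟨i, rfl⟩
    · intro hx H hH
      have h1 : I ≤ RingHom.ker (eval x) := by
        rw [hrange, Ideal.span_le]
        rintro _ ⟨i, rfl⟩
        exact hx i
      exact h1 hH
  · intro x hx hx0
    exact Pool.Agent.W467.FX.indep_of_span hrange hx (hI.smooth x hx hx0)

end Pool.Agent.Results.MP_9a3fdb_ag.NeighbourhoodOfCodimTwo
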