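import Pool.Agent.K6.H50.FN

/-!
# Smooth subvarieties of small codimension with semistable normal bundle

Let `X ⊂ ℙ^N` be a nonsingular subvariety of codimension `r`, `N ≥ 4 r`, `ω_X = O_X(k)`. By Barth and
Larsen the Chern classes of the normal bundle are integral multiples `c_j(N_X) = c_j h^j` of the
powers of the hyperplane class, `j ≤ r`; `c_1 = k + N + 1` by adjunction. The Chern roots
`β_1, ..., β_r` are the complex numbers with `1 + c_1 z + ... + c_r z^r = Π (1 + β_j z)`. `X` is
numerically a complete intersection of hypersurfaces of degrees `a_1, ..., a_r` if and only if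
`{β_j} = {a_j}`; then it has the degree, the Chern classes, and the Hilbert polynomial of such a
complete intersection. The following is known.

* `N_X` is ample, so the Schur polynomials `det (c_(λ_i + j - i))` are positive, for all partitions
  `λ` of numbers `≤ dim X = N - r` with parts `≤ r` (Fulton and Lazarsfeld).
* `χ(O_X(t))`, an integer, is the Koszul sum `Σ_S (-1)^|S| χ(ℙ^N, O(t - Σ_(j ∈ S) β_j))`
  (Riemann-Roch).
* If `N_X` is semistable, then `2 r c_2 ≥ (r - 1) c_1²` (Bogomolov).

We show: for all `r ≥ 1` and `ε > 0` there are `δ > 0` and `N₀` such that, if `N ≥ N₀`, `k ≤ δ N²` and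

  `(r - 1) c_1² - 2 r c_2 = Σ_(i < j) (β_i - β_j)² ≤ (1 - ε) r N² / 2`,

then all Chern roots are positive integers: `X` is numerically a complete intersection. If
`2 r c_2 ≥ (r - 1) c_1²`, then they are all equal.

So for `N ≥ N₀(r)`, `k ≤ δ(r) N²` every `X` with a semistable normal bundle is numerically a complete
intersection of `r` hypersurfaces of the same degree `a`. (Then `N_X(-a)` is semistable with vanishing
first and second Chern class, so it is a successive extension of unitary flat bundles, by Simpson, and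
trivial, since `X` is simply connected and `H¹(O_X) = 0`; and `X` is a complete intersection by the
theorem of Faltings on subvarieties whose normal bundle is a sum of line bundles. This is not part of
the theorem below.)

The proof. (1) All Chern roots are nearly real: `|arg β_j| ≤ π (r - 1) / (m + r - 1)`, where
`m = [(N - r) / r]`. Indeed the real and imaginary parts of multiples of the sequence `(-1/β_j)^l`,
`l < m + r`, are orthogonal to the rows of the `m × (m + r)` Toeplitz matrix `(c_(j - i))`, whose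
maximal minors are Schur polynomials, hence positive; so they have at least `m` changes of sign (an
argument of Gantmacher, Krein, and Schoenberg). By this and the assumptions the differences of the
real parts of the roots are at most `(1 - ε/8) N`, and the imaginary parts are small compared with
`N`. (2) Let `R(T) = Σ_S (-1)^|S| g(β_S) C(t - β_S, l)`, `β_S = Σ_(j ∈ S) β_j`. It is an integer for
all polynomials `g` with integral coefficients, all integers `t`, and all `l ≤ N - deg g`. Let `β` be a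
root which is not an integer, with minimal real part, and let `g` be divisible by the minimal
polynomials of all sums `β_S` which are not conjugate to `β`. So the sum is extended over the
conjugates of `β`, which are Chern roots, and the binomial coefficients are exponentially small for
suitable `t` and `l` close to `N`, since all `t - β_j` are between `ε' N` and `(1 - ε') N`. Hence the
integers vanish, for `deg β` consecutive powers of `T` times `g`, and so do the binomial coefficients, a
contradiction.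
-/

set_option autoImplicit false

namespace Pool.Agent.Results.MP_9a3fdb_ag.SmallDiscriminant

open Polynomial

/-- `χ(ℙ^N, O(x)) = (x + 1) ... (x + N) / N!`. -/
noncomputable def chiPN (N : ℕ) (x : ℂ) : ℂ :=
  (∏ j ∈ Finset.range N, (x + j + 1)) / N.factorial

/-- `χ(O_X(x)) = Σ_S (-1)^|S| χ(ℙ^N, O(x - β_S))`, `β_S` the sum of the Chern roots `β_j`, `j ∈ S`. -/
noncomputable def chiX (N : ℕ) {r : ℕ} (β : Fin r → ℂ) (x : ℂ) : ℂ :=
  ∑ S : Finset (Fin r), (-1) ^ S.card * chiPN N (x - ∑ j ∈ S, β j)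

/-- The Schur polynomial `det (c_(λ_i + j - i))` of the partition `λ_1 ≥ ... ≥ λ_m` in the Chern
classes `c_j` (the coefficients of `c`; `c_j = 0` for `j < 0`). -/
noncomputable def schur (c : ℤ[X]) {m : ℕ} (lam : Fin m → ℕ) : ℤ :=
  Matrix.det (Matrix.of fun i j : Fin m =>
    if (i : ℕ) ≤ lam i + j then c.coeff (lam i + j - i) else 0)

theorem chiX_eq (N : ℕ) {r : ℕ} (β : Fin r → ℂ) (x : ℂ) :
    Pool.Agent.K6.H50.CI.J β (fun _ => 1) x N = chiX N β (x - N) := by
  unfold Pool.Agent.K6.H50.CI.J chiX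
  refine Finset.sum_congr rfl fun S _ => ?_
  rw [mul_one]
  congr 1
  unfold Pool.Agent.K6.H50.CI.cho chiPN
  congr 1
  rw [← Finset.prod_range_reflect]
  refine Finset.prod_congr rfl fun j hj => ?_
  have hj' := Finset.mem_range.1 hj
  rw [show N - 1 - j = N - (j + 1) by omega, Nat.cast_sub (by omega)]
  push_cast
  ring

/-- **Smooth subvarieties of codimension `r` with `k ≤ δ N²` and
`(r - 1) c_1² - 2 r c_2 ≤ (1 - ε) r N² / 2`, for instance with semistable normal bundle, are
numerically complete intersections.** -/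
theorem result (r : ℕ) (hr : 1 ≤ r) (ε : ℝ) (hε : 0 < ε) :
    ∃ δ : ℝ, 0 < δ ∧ ∃ N₀ : ℕ, ∀ N ≥ N₀, ∀ (c : ℤ[X]) (β : Fin r → ℂ),
      -- `1 + c_1 h + ... + c_r h^r = Π (1 + β_j h)`
      c.map (Int.castRingHom ℂ) = ∏ j, (1 + C (β j) * X) →
      -- the Schur polynomials of degree `≤ dim X` are positive
      (∀ (m : ℕ) (lam : Fin m → ℕ), Antitone lam → (∀ i, lam i ≤ r) → ∑ i, lam i ≤ N - r →
        0 < schur c lam) →
      -- the Euler characteristics of `O_X(t)` are integers
      (∀ t : ℤ, ∃ z : ℤ, chiX N β t = z) →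
      -- `ω_X = O_X(k)`
      ∀ k : ℤ, c.coeff 1 = k + N + 1 → (k : ℝ) ≤ δ * N ^ 2 →
      ((r : ℝ) - 1) * c.coeff 1 ^ 2 - 2 * r * c.coeff 2 ≤ (1 - ε) * (r * N ^ 2 / 2) →
      -- the Chern roots are positive integers
      ∃ a : Fin r → ℕ, (∀ j, 1 ≤ a j ∧ β j = a j) ∧
        -- and equal, if Bogomolov's inequality holds
        (((r : ℝ) - 1) * c.coeff 1 ^ 2 ≤ 2 * r * c.coeff 2 → ∀ i j, a i = a j) := by
  classical
  have hr0 : (0 : ℝ) < r := by exact_mod_cast hr
  have hr1 : (1 : ℝ) ≤ r := by exact_mod_cast hr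
  set ε' : ℝ := min ε 1 with hε'
  have hε'0 : 0 < ε' := lt_min hε one_pos
  have hε'1 : ε' ≤ 1 := min_le_right _ _
  have hε'ε : ε' ≤ ε := min_le_left _ _
  set e : ℝ := ε' / 4 with he
  have he0 : 0 < e := by positivity
  have he1 : e ≤ 1 := by linarith
  obtain ⟨N₁, hN₁⟩ := Pool.Agent.K6.H50.FN.window r hr e he0 he1
  set δ : ℝ := e / (800 * r ^ 2) with hδ
  have hδ0 : 0 < δ := by positivity
  refine ⟨δ, hδ0, max N₁ (max (4 * r) (max (7 * r ^ 2) (Nat.ceil (2 / δ)))), ?_⟩
  intro N hN c β hc hpos hchi k hk hkN hD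
  have hN1 : N₁ ≤ N := (le_max_left _ _).trans hN
  have hN2 : 4 * r ≤ N := (le_max_left _ _).trans ((le_max_right _ _).trans hN)
  have hN3 : 7 * r ^ 2 ≤ N :=
    (le_max_left _ _).trans ((le_max_right _ _).trans ((le_max_right _ _).trans hN))
  have hN4 : Nat.ceil (2 / δ) ≤ N :=
    (le_max_right _ _).trans ((le_max_right _ _).trans ((le_max_right _ _).trans hN))
  have hNpos : 0 < N := by omega
  have hNR : (1 : ℝ) ≤ N := by exact_mod_cast hNpos
  have hN0 : (0 : ℝ) < N := by linarith
  have hNδ : 2 ≤ δ * N := by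
    have h1 : 2 / δ ≤ N := (Nat.le_ceil _).trans (by exact_mod_cast hN4)
    rw [div_le_iff₀ hδ0] at h1
    linarith
  have hc1 : (c.coeff 1 : ℝ) ≤ e / (400 * r ^ 2) * N ^ 2 := by
    have h1 : (c.coeff 1 : ℝ) = k + N + 1 := by rw [hk]; push_cast; ring
    have h2 : e / (400 * (r : ℝ) ^ 2) = 2 * δ := by rw [hδ]; field_simp; norm_num
    rw [h1, h2]
    nlinarith
  have hnr := fun j => Pool.Agent.K6.H50.NR.near_real hr hN2 hN3 c β hc hpos j
  have hsum := Pool.Agent.K6.H50.SP.sum_re c β hc
  -- the sum of the squares of the imaginary parts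
  have hy : 2 * ∑ j, (β j).im ^ 2 ≤ ε' / 2 * N ^ 2 := by
    have h1 : ∀ j, (β j).im ^ 2 ≤ (13 * (r : ℝ) ^ 2 / N) ^ 2 * (β j).re ^ 2 := by
      intro j
      rw [← mul_pow, ← sq_abs]
      exact pow_le_pow_left₀ (abs_nonneg _) (hnr j).2.1 2
    have h2 : ∑ j, (β j).re ^ 2 ≤ (c.coeff 1 : ℝ) ^ 2 := by
      rw [← hsum]
      exact Finset.sum_sq_le_sq_sum_of_nonneg fun j _ => (hnr j).1.le
    have h3 : (0 : ℝ) ≤ c.coeff 1 := by
      rw [← hsum]
      exact Finset.sum_nonneg fun j _ => (hnr j).1.le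
    have h4 : (c.coeff 1 : ℝ) ^ 2 ≤ (e / (400 * r ^ 2) * N ^ 2) ^ 2 := pow_le_pow_left₀ h3 hc1 2
    have h5 : ∑ j, (β j).im ^ 2 ≤ (13 * (r : ℝ) ^ 2 / N) ^ 2 * (e / (400 * r ^ 2) * N ^ 2) ^ 2 := by
      refine (Finset.sum_le_sum fun j _ => h1 j).trans ?_
      rw [← Finset.mul_sum]
      exact mul_le_mul_of_nonneg_left (h2.trans h4) (sq_nonneg _)
    have h6 : (13 * (r : ℝ) ^ 2 / N) ^ 2 * (e / (400 * r ^ 2) * N ^ 2) ^ 2 =
        (13 / 400) ^ 2 * e ^ 2 * N ^ 2 := by
      field_simp
    rw [h6] at h5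
    have h7 : e ^ 2 ≤ ε' := by rw [he]; nlinarith
    have h8 : 0 ≤ (N : ℝ) ^ 2 := by positivity
    nlinarith
  have hspread : ∀ i j, (β i).re - (β j).re ≤ (1 - e) * N := by
    intro i j
    have h1 := Pool.Agent.K6.H50.SP.spread c β hc hr i j
    have h2 : 2 / (r : ℝ) * (((r : ℝ) - 1) * (c.coeff 1 : ℝ) ^ 2 - 2 * r * c.coeff 2) ≤
        (1 - ε') * N ^ 2 := by
      calc 2 / (r : ℝ) * (((r : ℝ) - 1) * (c.coeff 1 : ℝ) ^ 2 - 2 * r * c.coeff 2)
          ≤ 2 / (r : ℝ) * ((1 - ε) * (r * N ^ 2 / 2)) :=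
            mul_le_mul_of_nonneg_left hD (by positivity)
        _ = (1 - ε) * N ^ 2 := by field_simp
        _ ≤ (1 - ε') * N ^ 2 := by
            apply mul_le_mul_of_nonneg_right (by linarith) (by positivity)
    have h3 : ((β i).re - (β j).re) ^ 2 ≤ ((1 - e) * N) ^ 2 := by
      refine h1.trans ?_
      have h4 : (1 - e) ^ 2 = 1 - ε' / 2 + e ^ 2 := by rw [he]; ring
      rw [mul_pow, h4]
      have h5 : 0 ≤ e ^ 2 * (N : ℝ) ^ 2 := by positivity
      nlinarith
    exact (le_abs_self _).trans (abs_le_of_sq_le_sq h3 (mul_nonneg (by linarith) hN0.le))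
  have hJ : ∀ t : ℤ, Pool.Agent.K6.H50.CI.IsZ (Pool.Agent.K6.H50.CI.J β (fun _ => 1) t N) := by
    intro t
    rw [chiX_eq]
    obtain ⟨z, hz⟩ := hchi (t - N)
    exact ⟨z, by rw [← hz]; push_cast; rfl⟩
  have hint := hN₁ N hN1 c β hc hpos hJ hc1 hspread
  choose n hn using hint
  have hn1 : ∀ j, 1 ≤ n j := by
    intro j
    have h1 := (hnr j).1
    rw [hn j, Complex.intCast_re] at h1
    have h2 : 0 < n j := by exact_mod_cast h1
    omega
  have hn2 : ∀ j, 1 ≤ (n j).toNat := fun j => by
    have := hn1 j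
    omega
  refine ⟨fun j => (n j).toNat, fun j => ⟨hn2 j, ?_⟩, ?_⟩
  · rw [hn j]
    have : ((n j).toNat : ℤ) = n j := Int.toNat_of_nonneg (by have := hn1 j; omega)
    exact_mod_cast congrArg (fun z : ℤ => (z : ℂ)) this.symm
  · intro hB i j
    have h1 := Pool.Agent.K6.H50.SP.spread c β hc hr i j
    have h2 : ∑ j, (β j).im ^ 2 = 0 := Finset.sum_eq_zero fun j _ => by
      rw [hn j, Complex.intCast_im]
      norm_num
    have h3 : 2 / (r : ℝ) * (((r : ℝ) - 1) * (c.coeff 1 : ℝ) ^ 2 - 2 * r * c.coeff 2) ≤ 0 :=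
      mul_nonpos_of_nonneg_of_nonpos (by positivity) (by linarith)
    rw [h2] at h1
    have h4 : ((β i).re - (β j).re) ^ 2 ≤ 0 := by linarith
    have h5 : (β i).re - (β j).re = 0 := by
      have := sq_nonneg ((β i).re - (β j).re)
      exact pow_eq_zero_iff (two_ne_zero) |>.1 (le_antisymm h4 this)
    rw [hn i, hn j, Complex.intCast_re, Complex.intCast_re] at h5
    have h6 : n i = n j := by exact_mod_cast sub_eq_zero.1 h5
    simp only [h6]

end Pool.Agent.Results.MP_9a3fdb_ag.SmallDiscriminant
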